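import Pool.Agent.Lib_helper28.OW.G5
import Pool.Agent.Lib_helper51.OK5.Base
import Pool.Agent.Lib_helper46.OX.L5

/-! Assembly for five colours. -/

set_option autoImplicit false
set_option linter.unusedSectionVars false
set_option linter.unusedVariables false

open scoped Classical
open Finset
open Pool.Agent.O2 (PC Cb CrOn pr ms dg nd)
open Pool.Agent.O3 (con hit Clq)
open Pool.Agent.OW28 (NoCE Add1)
open Pool.Agent.OW
open Pool.Agent.OX46 (L5)

namespace Pool.Agent.OX92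

/-- the two tables for five colours agree -/
theorem tab_eq : Pool.Agent.OK5.b5 = Pool.Agent.OW28G.b5 := by
  funext m
  unfold Pool.Agent.OK5.b5 Pool.Agent.OW28G.b5 Pool.Agent.OW28G.v5
  split_ifs <;> omega

/-- the structure of the low vertices -/
theorem l5_of {V : Type} {G : SimpleGraph V} {S : Finset V} (h : Cex G S 5 Pool.Agent.OK5.b5)
    (hr : (S.card - 1) % 5 ≠ 4)
    (hc1 : ∀ x ∈ S, dg G S x = 5 → ∀ v ∈ S, G.Adj x v → ¬ Tw G S x v →
      dg G S v ≤ 5 + (tws G S x).card →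
      (dg G S v = 5 → (tws G S v).card ≤ (tws G S x).card) → Clq G (cn G S v x)) :
    L5 G S :=
  ⟨h.cr, hc1, Pool.Agent.OK5.c2 h, Pool.Agent.OK5.c3 h,
    fun x hx hd _ v hv hxv hq => Pool.Agent.OK5.c4 h hr x hx hd v hv hxv hq,
    Pool.Agent.OK5.c4' h, Pool.Agent.OK5.no_ce h⟩

/-- the inequality of the last part -/
theorem end_num {V : Type} {G : SimpleGraph V} {S : Finset V} (h : Cex G S 5 Pool.Agent.OK5.b5)
    (hr : (S.card - 1) % 5 = 2 ∨ (S.card - 1) % 5 = 3) :
    2 * (S.card : ℤ) + 2 ≤ 5 * df G 5 S := by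
  have h1 := h.big
  have h2 := Pool.Agent.OK5.card_gt h
  unfold Pool.Agent.OK5.b5 at h1
  rw [if_neg (by omega), if_neg (by omega)] at h1
  have h3 : S.card ≤ 5 * ((S.card - 1) / 5) + 4 := by omega
  have h4 : (S.card : ℤ) ≤ 5 * (((S.card - 1) / 5 : ℕ) : ℤ) + 4 := by exact_mod_cast h3
  linarith

/-- the theorem for five colours, from the open blocks -/
theorem claim5_step
    (hc1 : ∀ (V : Type) (G : SimpleGraph V) (S : Finset V), Cex G S 5 Pool.Agent.OK5.b5 →
      ((S.card - 1) % 5 = 2 ∨ (S.card - 1) % 5 = 3) →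
      ∀ x ∈ S, dg G S x = 5 → ∀ v ∈ S, G.Adj x v → ¬ Tw G S x v →
      dg G S v ≤ 5 + (tws G S x).card →
      (dg G S v = 5 → (tws G S v).card ≤ (tws G S x).card) → Clq G (cn G S v x))
    (hend : ∀ (V : Type) (G : SimpleGraph V) (S : Finset V), L5 G S →
      2 * (S.card : ℤ) + 2 ≤ 5 * df G 5 S → False) :
    ∀ (V : Type) (G : SimpleGraph V) (S : Finset V), CrOn G S 5 →
      df G 5 S ≤ Pool.Agent.OW28G.b5 (S.card - 1) := by
  by_contra hbad
  obtain ⟨V, G, S, h⟩ := exists_cex Pool.Agent.OW28G.b5_F0 hbad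
  have hlt : (S.card - 1) % 5 < 5 := Nat.mod_lt _ (by omega)
  have hY : 2 ≤ Yy G 5 Pool.Agent.OW28G.b5 S := by
    have := h.big
    unfold Yy
    linarith
  by_cases h1 : (S.card - 1) % 5 = 0 ∨ (S.card - 1) % 5 = 1
  · exact Pool.Agent.OW28G.five_01 h.cr h.ih hY h1
  · by_cases h2 : (S.card - 1) % 5 = 4
    · exact Pool.Agent.OW28G.five_4 h.cr h.ih hY h2
    · have h3 : (S.card - 1) % 5 = 2 ∨ (S.card - 1) % 5 = 3 := by omega
      have h' : Cex G S 5 Pool.Agent.OK5.b5 := by rw [tab_eq]; exact h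
      exact hend V G S (l5_of h' h2 (hc1 V G S h' h3)) (end_num h' h3)

end Pool.Agent.OX92
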