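import Pool.Agent.Lib_helper28.OX.R6
import Pool.Agent.Lib_helper46.O2.G3
import Pool.Agent.Lib_helper92.O3.B.Main

/-! Assembly for six colours. -/

set_option autoImplicit false
set_option linter.unusedSectionVars false
set_option linter.unusedVariables false

open scoped Classical
open Finset
open Pool.Agent.O2 (PC Cb CrOn pr ms dg nd)
open Pool.Agent.OW
open Pool.Agent.OX28 (b6 v6 Nm6 b6_F0 card_gt six_01 six_5)

namespace Pool.Agent.OX92

variable {V : Type} {G : SimpleGraph V} {S : Finset V}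

/-- critical sets with ten vertices -/
theorem small10 (h : CrOn G S 6) (hc : S.card = 10) : df G 6 S ≤ 0 := by
  have h1 := (Pool.Agent.O2.gallai S 6 3 h (by omega)).2.2
  have h2 := Pool.Agent.O2.pr_add_ms G S
  rw [hc] at h2
  have h3 : 70 ≤ pr G S S := by omega
  have h4 : (70 : ℤ) ≤ pr G S S := by exact_mod_cast h3
  unfold df
  rw [hc]
  push_cast
  linarith

/-- critical sets with eleven vertices -/
theorem small11 (h : CrOn G S 6) (hc : S.card = 11) : df G 6 S ≤ 1 := by
  have h1 := (Pool.Agent.O2.gallai S 6 4 h (by omega)).2.2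
  have h2 := Pool.Agent.O2.pr_add_ms G S
  rw [hc] at h2
  have h3 : 76 ≤ pr G S S := by omega
  have h4 : (76 : ℤ) ≤ pr G S S := by exact_mod_cast h3
  unfold df
  rw [hc]
  push_cast
  linarith

/-- critical sets with sixteen vertices -/
theorem small16 (h : CrOn G S 6) (hc : S.card = 16) : df G 6 S ≤ 2 := by
  have h1 := Pool.Agent.O3.lower (p := 3) h (by omega) (by omega) (by omega)
  push_cast at h1
  unfold df
  rw [hc]
  push_cast
  linarith

/-- the inequality for the residue `2` -/
theorem num2 (h : Cex G S 6 b6) (hr : (S.card - 1) % 6 = 2) :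
    2 * (S.card : ℤ) ≤ 6 * df G 6 S := by
  have h1 := h.big
  have h2 := card_gt Nm6 h
  unfold b6 v6 at h1
  rw [if_neg (by omega), if_neg (by omega), if_pos hr] at h1
  have h3 : S.card = 6 * ((S.card - 1) / 6) + 3 := by omega
  have h4 : (S.card : ℤ) = 6 * (((S.card - 1) / 6 : ℕ) : ℤ) + 3 := by exact_mod_cast h3
  linarith

/-- the inequality for the residue `3` -/
theorem num3 (h : Cex G S 6 b6) (hr : (S.card - 1) % 6 = 3) :
    2 * (S.card : ℤ) ≤ 7 * df G 6 S ∨ (S.card = 22 ∧ 6 ≤ df G 6 S) := by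
  have h1 := h.big
  have h2 := card_gt Nm6 h
  unfold b6 v6 at h1
  rw [if_neg (by omega), if_neg (by omega), if_neg (by omega), if_pos hr] at h1
  have h3 : S.card = 6 * ((S.card - 1) / 6) + 4 := by omega
  have h4 : (S.card : ℤ) = 6 * (((S.card - 1) / 6 : ℕ) : ℤ) + 4 := by exact_mod_cast h3
  by_cases hq : 4 ≤ (S.card - 1) / 6
  · left
    have h5 : (4 : ℤ) ≤ (((S.card - 1) / 6 : ℕ) : ℤ) := by exact_mod_cast hq
    linarith
  · have h6 : S.card = 10 ∨ S.card = 16 ∨ S.card = 22 := by omega
    rcases h6 with h6 | h6 | h6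
    · exfalso
      have h7 := small10 h.cr h6
      rw [show (S.card - 1) / 6 = 1 by omega] at h1
      push_cast at h1
      linarith
    · exfalso
      have h7 := small16 h.cr h6
      rw [show (S.card - 1) / 6 = 2 by omega] at h1
      push_cast at h1
      linarith
    · right
      refine ⟨h6, ?_⟩
      rw [show (S.card - 1) / 6 = 3 by omega] at h1
      push_cast at h1
      linarith

/-- the inequality for the residue `4` -/
theorem num4 (h : Cex G S 6 b6) (hr : (S.card - 1) % 6 = 4) :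
    2 * (S.card : ℤ) ≤ 7 * df G 6 S := by
  have h1 := h.big
  have h2 := card_gt Nm6 h
  unfold b6 v6 at h1
  rw [if_neg (by omega), if_neg (by omega), if_neg (by omega), if_neg (by omega), if_pos hr] at h1
  have h3 : S.card = 6 * ((S.card - 1) / 6) + 5 := by omega
  have h4 : (S.card : ℤ) = 6 * (((S.card - 1) / 6 : ℕ) : ℤ) + 5 := by exact_mod_cast h3
  by_cases hq : 2 ≤ (S.card - 1) / 6
  · have h5 : (2 : ℤ) ≤ (((S.card - 1) / 6 : ℕ) : ℤ) := by exact_mod_cast hq
    linarith
  · exfalso
    have h6 : S.card = 11 := by omega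
    have h7 := small11 h.cr h6
    rw [show (S.card - 1) / 6 = 1 by omega] at h1
    push_cast at h1
    linarith

/-- the theorem for six colours, from the last parts -/
theorem claim6_step
    (h2 : ∀ (V : Type) (G : SimpleGraph V) (S : Finset V), Cex G S 6 b6 →
      (S.card - 1) % 6 = 2 → 2 * (S.card : ℤ) ≤ 6 * df G 6 S → False)
    (h34 : ∀ (V : Type) (G : SimpleGraph V) (S : Finset V), Cex G S 6 b6 →
      ((S.card - 1) % 6 = 3 ∨ (S.card - 1) % 6 = 4) → 2 * (S.card : ℤ) ≤ 7 * df G 6 S → False)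
    (h22 : ∀ (V : Type) (G : SimpleGraph V) (S : Finset V), Cex G S 6 b6 →
      S.card = 22 → 6 ≤ df G 6 S → False) :
    ∀ (V : Type) (G : SimpleGraph V) (S : Finset V), CrOn G S 6 →
      df G 6 S ≤ b6 (S.card - 1) := by
  by_contra hbad
  obtain ⟨V, G, S, h⟩ := exists_cex b6_F0 hbad
  have hlt : (S.card - 1) % 6 < 6 := Nat.mod_lt _ (by omega)
  by_cases h1 : (S.card - 1) % 6 = 0 ∨ (S.card - 1) % 6 = 1
  · exact six_01 h h1
  by_cases h5 : (S.card - 1) % 6 = 5
  · exact six_5 h h5
  by_cases hr2 : (S.card - 1) % 6 = 2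
  · exact h2 V G S h hr2 (num2 h hr2)
  by_cases hr3 : (S.card - 1) % 6 = 3
  · rcases num3 h hr3 with h6 | ⟨h6, h7⟩
    · exact h34 V G S h (Or.inl hr3) h6
    · exact h22 V G S h h6 h7
  · have hr4 : (S.card - 1) % 6 = 4 := by omega
    exact h34 V G S h (Or.inr hr4) (num4 h hr4)

end Pool.Agent.OX92
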