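import Pool.Agent.Lib_helper46.OW.C5
import Pool.Agent.Lib_helper22.OX.AE2

/-!
# The degrees in the neighbourhood of a low pair, if two edges at a vertex can be added

`rev_star`, `c5_star`: the reverse clone with two new edges at one vertex instead of the bound for
`Y`.
-/

set_option autoImplicit false
set_option linter.unusedSectionVars false
set_option linter.unusedVariables false

open scoped Classical
open Finset
open Pool.Agent.O2 (PC Cb CrOn pr ms dg nd addE)
open Pool.Agent.O3 (con hit Clq)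
open Pool.Agent.OW
open Pool.Agent.OW46 (rev_not_cb)
open Pool.Agent.OX28 (b6 Nm6 c3)

namespace Pool.Agent.OX92

variable {V : Type}

/-- two edges at one vertex can be added to every proper subset -/
def Star (G : SimpleGraph V) (S : Finset V) (K : ℕ) : Prop :=
  ∀ R ⊆ S, R ≠ S → ∀ F : Finset (V × V), F.card ≤ 2 → ∀ p : V,
    (∀ e ∈ F, e.1 = p ∨ e.2 = p) → Cb (addE G F) R K

/-- the reverse clone: the degree of `y` -/
theorem rev_star {K : ℕ} {G : SimpleGraph V} {S : Finset V} (h : CrOn G S K) (hK : 0 < K)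
    (hst : Star G S K)
    {x v y : V} (hx : x ∈ S) (hv : v ∈ S) (hy : y ∈ S) (hxv : G.Adj x v) (hxy : G.Adj x y)
    (hyv : y ≠ v) (hvy : ¬ G.Adj v y) (hlx : dg G S x = K) (hlv : dg G S v = K)
    (hc : Clq G (cn G S v x)) : K + 2 ≤ dg G S y := by
  by_contra hlt
  have hnc := rev_not_cb h.1 hK hx hv hy hxv hxy hyv hvy hlx hc
  obtain ⟨T, hTS, hT⟩ := Pool.Agent.O2.exists_crOn hnc
  have hvx : v ≠ x := hxv.ne'
  -- `v` is not in `T`
  have hvT : v ∉ T := by
    intro hvT
    have h1 := hT.dg_ge hvT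
    have h2 : dg (clo G S x y) T v + 1 ≤ dg G S v := by
      unfold dg
      apply Nat.succ_le_of_lt
      apply card_lt_card
      refine ⟨fun z hz => ?_, fun hss => ?_⟩
      · obtain ⟨hz1, hz2⟩ := mem_filter.1 hz
        by_cases hzx : z = x
        · exact mem_filter.2 ⟨hTS hz1, hzx ▸ hxv.symm⟩
        · exact mem_filter.2 ⟨hTS hz1, (clo_adj hvx hzx).1 hz2⟩
      · have h3 := (mem_filter.1 (hss (mem_filter.2 ⟨hx, hxv.symm⟩))).2
        rcases (clo_adj_v hvx).1 h3.symm with h4 | ⟨-, h4⟩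
        · exact hyv h4.symm
        · exact hvy h4.symm
    omega
  have hTne : T ≠ S := fun e => hvT (e ▸ hv)
  -- the new edges
  set Q := (cn G S v x).erase x with hQ
  have hQm : ∀ z, z ∈ Q ↔ z ≠ v ∧ z ∈ S ∧ G.Adj x z := by
    intro z
    rw [hQ, mem_erase, mem_cn]
    constructor
    · rintro ⟨h1, h2 | h2⟩
      · exact absurd h2 h1
      · exact h2
    · intro h1
      exact ⟨h1.2.2.ne', Or.inr h1⟩
  have hQc : Q.card + 1 = K := by
    have h1 := cn_card (G := G) (S := S) hv hxv
    rw [hQ, card_erase_of_mem (mem_cn.2 (Or.inl rfl)), h1, hlx]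
    omega
  have hyQ : y ∈ Q := (hQm y).2 ⟨hyv, hy, hxy⟩
  have hQsub : Q ⊆ cn G S x y := by
    intro z hz
    obtain ⟨h8, h9, h10⟩ := (hQm z).1 hz
    rw [mem_cn]
    by_cases hzy : z = y
    · exact Or.inl hzy
    · exact Or.inr ⟨h10.ne', h9, hc y (mem_of_mem_erase hyQ) z (mem_of_mem_erase hz)
        (Ne.symm hzy)⟩
  have h6 : (cn G S x y).card = dg G S y := cn_card hx hxy.symm
  have h11 : (cn G S x y \ Q).card = dg G S y - Q.card := by
    rw [card_sdiff_of_subset hQsub, h6]
  have hF := hst T hTS hTne ((cn G S x y \ Q).image fun z => (x, z))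
    (card_image_le.trans (by omega)) x (by
      intro e he
      obtain ⟨z, -, rfl⟩ := mem_image.1 he
      exact Or.inl rfl)
  apply hT.1
  obtain ⟨φ, hφ⟩ := (Pool.Agent.O2.cb_fin hK).1 hF
  apply Pool.Agent.O2.cb_of_pc (φ := φ)
  have key : ∀ b ∈ T, b ≠ x → (clo G S x y).Adj x b → (addE G
      ((cn G S x y \ Q).image fun z => (x, z))).Adj x b := by
    intro b hb hbx hab
    by_cases hxb : G.Adj x b
    · exact Or.inl hxb
    · refine Or.inr ⟨Ne.symm hbx, Or.inl (mem_image.2 ⟨b, mem_sdiff.2 ⟨?_, ?_⟩, rfl⟩)⟩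
      · rcases (clo_adj_v hbx).1 hab with h4 | ⟨h4, h5⟩
        · exact mem_cn.2 (Or.inl h4)
        · exact mem_cn.2 (Or.inr ⟨hbx, h4, h5⟩)
      · intro hbQ
        exact hxb ((hQm b).1 hbQ).2.2
  intro a ha b hb hab
  by_cases hax : a = x
  · subst hax
    by_cases hbx : b = a
    · subst hbx
      exact absurd hab (SimpleGraph.irrefl _)
    · exact hφ a ha b hb (key b hb hbx hab)
  · by_cases hbx : b = x
    · subst hbx
      exact (hφ b hb a ha (key a ha hax hab.symm)).symm
    · exact hφ a ha b hb (Or.inl ((clo_adj hax hbx).1 hab))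

/-- the degrees in the neighbourhood of a low pair -/
theorem c5_star {K : ℕ} {G : SimpleGraph V} {S : Finset V} (h : CrOn G S K) (hK : 0 < K)
    (hst : Star G S K)
    (c3 : ∀ x ∈ S, dg G S x = K → ∀ v ∈ S, G.Adj x v → ∀ v' ∈ S, G.Adj x v' → v ≠ v' →
      Clq G (cn G S v x) → Clq G (cn G S v' x) → False) :
    ∀ x ∈ S, dg G S x = K → ∀ v ∈ S, dg G S v = K → G.Adj x v →
    (tws G S x).card = 0 → (tws G S v).card = 0 →
    Clq G (cn G S v x) → Clq G (cn G S x v) →
    ∀ y ∈ S, G.Adj x y → y ≠ v → K + 2 ≤ dg G S y := by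
  intro x hx hlx v hv hlv hxv htx htv hc hc' y hy hxy hyv
  by_cases hvy : G.Adj v y
  swap
  · exact rev_star h hK hst hx hv hy hxv hxy hyv hvy hlx hlv hc
  by_contra hlt
  have hnt : ¬ Tw G S x v := by
    intro ht
    have : v ∈ tws G S x := mem_filter.2 ⟨hv, hxv.ne', ht⟩
    rw [card_eq_zero.1 htx] at this
    exact notMem_empty _ this
  have hkT : (cn G S v x).card = K := (cn_card hv hxv).trans hlx
  have hkT' : (cn G S x v).card = K := (cn_card hx hxv.symm).trans hlv
  -- the members of `T` not adjacent to `v`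
  set N := (cn G S v x).filter fun p => ¬ G.Adj v p with hN
  have hNm : ∀ p, p ∈ N ↔ p ≠ x ∧ p ≠ v ∧ p ∈ S ∧ G.Adj x p ∧ ¬ G.Adj v p := by
    intro p
    rw [hN, mem_filter, mem_cn]
    constructor
    · rintro ⟨h1 | ⟨h1, h2, h3⟩, h4⟩
      · exact absurd (h1 ▸ hxv.symm) h4
      · exact ⟨h3.ne', h1, h2, h3, h4⟩
    · rintro ⟨h1, h2, h3, h4, h5⟩
      exact ⟨Or.inr ⟨h2, h3, h4⟩, h5⟩
  have hyT : y ∈ cn G S v x := mem_cn.2 (Or.inr ⟨hyv, hy, hxy⟩)
  have hyT' : y ∈ cn G S x v := mem_cn.2 (Or.inr ⟨hxy.ne', hy, hvy⟩)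
  have hxT : x ∈ cn G S v x := mem_cn.2 (Or.inl rfl)
  have hvT' : v ∈ cn G S x v := mem_cn.2 (Or.inl rfl)
  -- `N` has at most one element
  have hN1 : N.card ≤ 1 := by
    -- common part
    have h1 : (cn G S v x ∩ cn G S x v).card + 1 + N.card = K := by
      have h2 : cn G S v x = insert x ((cn G S v x ∩ cn G S x v) ∪ N) := by
        ext p
        rw [mem_insert, mem_union, mem_inter, hNm, mem_cn, mem_cn]
        constructor
        · rintro (h3 | ⟨h3, h4, h5⟩)
          · exact Or.inl h3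
          · right
            by_cases h6 : G.Adj v p
            · exact Or.inl ⟨Or.inr ⟨h3, h4, h5⟩, Or.inr ⟨h5.ne', h4, h6⟩⟩
            · exact Or.inr ⟨h5.ne', h3, h4, h5, h6⟩
        · rintro (h3 | ⟨h3, -⟩ | ⟨h3, h4, h5, h6, h7⟩)
          · exact Or.inl h3
          · exact h3
          · exact Or.inr ⟨h4, h5, h6⟩
      have h3 : Disjoint (cn G S v x ∩ cn G S x v) N := by
        rw [disjoint_left]
        intro p hp hpN
        obtain ⟨-, h4⟩ := mem_inter.1 hp
        obtain ⟨h5, h6, h7, h8, h9⟩ := (hNm p).1 hpN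
        rcases mem_cn.1 h4 with h10 | ⟨-, -, h10⟩
        · exact h6 h10
        · exact h9 h10
      have h4 : x ∉ (cn G S v x ∩ cn G S x v) ∪ N := by
        rw [mem_union, mem_inter, hNm]
        rintro (⟨-, h5⟩ | ⟨h5, -⟩)
        · rcases mem_cn.1 h5 with h6 | ⟨h6, -⟩
          · exact hxv.ne h6
          · exact h6 rfl
        · exact h5 rfl
      have h5 := congrArg card h2
      rw [card_insert_of_notMem h4, card_union_of_disjoint h3, hkT] at h5
      omega
    have h2 : (cn G S v x ∪ cn G S x v).card + (cn G S v x ∩ cn G S x v).card = K + K := by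
      rw [card_union_add_card_inter, hkT, hkT']
    have h3 : (cn G S v x ∪ cn G S x v).card ≤ dg G S y + 1 := by
      have h4 : (cn G S v x ∪ cn G S x v).erase y ⊆ S.filter fun z => G.Adj y z := by
        intro z hz
        obtain ⟨hzy, hz'⟩ := mem_erase.1 hz
        rcases mem_union.1 hz' with h5 | h5
        · refine mem_filter.2 ⟨?_, hc y hyT z h5 (Ne.symm hzy)⟩
          rcases mem_cn.1 h5 with rfl | h6
          · exact hx
          · exact h6.2.1
        · refine mem_filter.2 ⟨?_, hc' y hyT' z h5 (Ne.symm hzy)⟩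
          rcases mem_cn.1 h5 with rfl | h6
          · exact hv
          · exact h6.2.1
      have h5 := card_le_card h4
      rw [card_erase_of_mem (mem_union_left _ hyT)] at h5
      have h6 : (S.filter fun z => G.Adj y z).card = dg G S y := rfl
      omega
    omega
  -- `N` is not empty
  obtain ⟨a, ha⟩ : N.Nonempty := by
    rw [nonempty_iff_ne_empty]
    intro he
    apply hnt
    refine ⟨hxv, ?_⟩
    have hsub : (S.filter fun z => G.Adj x z).erase v ⊆ (S.filter fun z => G.Adj v z).erase x := by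
      intro z hz
      obtain ⟨h1, h2⟩ := mem_erase.1 hz
      obtain ⟨h3, h4⟩ := mem_filter.1 h2
      refine mem_erase.2 ⟨h4.ne', mem_filter.2 ⟨h3, ?_⟩⟩
      by_contra h5
      have : z ∈ N := (hNm z).2 ⟨h4.ne', h1, h3, h4, h5⟩
      rw [he] at this
      exact notMem_empty _ this
    have hcard : ((S.filter fun z => G.Adj v z).erase x).card ≤
        ((S.filter fun z => G.Adj x z).erase v).card := by
      have h1 : ((S.filter fun z => G.Adj v z).erase x).card = K - 1 := by
        rw [card_erase_of_mem (mem_filter.2 ⟨hx, hxv.symm⟩)]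
        exact congrArg (fun n => n - 1) hlv
      have h2 : ((S.filter fun z => G.Adj x z).erase v).card = K - 1 := by
        rw [card_erase_of_mem (mem_filter.2 ⟨hv, hxv⟩)]
        exact congrArg (fun n => n - 1) hlx
      rw [h1, h2]
    have heq := eq_of_subset_of_card_le hsub hcard
    intro c hc1 hcx hcv
    constructor
    · intro h1
      have : c ∈ (S.filter fun z => G.Adj v z).erase x := by
        rw [← heq]
        exact mem_erase.2 ⟨hcv, mem_filter.2 ⟨hc1, h1⟩⟩
      exact (mem_filter.1 (mem_of_mem_erase this)).2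
    · intro h1
      have : c ∈ (S.filter fun z => G.Adj x z).erase v := by
        rw [heq]
        exact mem_erase.2 ⟨hcx, mem_filter.2 ⟨hc1, h1⟩⟩
      exact (mem_filter.1 (mem_of_mem_erase this)).2
  obtain ⟨ha1, ha2, ha3, ha4, ha5⟩ := (hNm a).1 ha
  have huniq : ∀ p ∈ N, p = a := fun p hp => card_le_one.1 hN1 p hp a ha
  -- `N[x] - a` is a clique as well
  refine c3 x hx hlx v hv hxv a ha3 ha4 (Ne.symm ha2) hc ?_
  have hvadj : ∀ q ∈ cn G S a x, q ≠ v → G.Adj v q := by
    intro q hq hqv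
    rcases mem_cn.1 hq with rfl | ⟨h1, h2, h3⟩
    · exact hxv.symm
    · by_contra h4
      exact h1 (huniq q ((hNm q).2 ⟨h3.ne', hqv, h2, h3, h4⟩))
  intro p hp q hq hpq
  by_cases hpv : p = v
  · rw [hpv]
    exact hvadj q hq (fun e => hpq (hpv.trans e.symm))
  · by_cases hqv : q = v
    · rw [hqv]
      exact (hvadj p hp hpv).symm
    · apply hc p _ q _ hpq
      · rcases mem_cn.1 hp with h1 | ⟨h1, h2, h3⟩
        · exact mem_cn.2 (Or.inl h1)
        · exact mem_cn.2 (Or.inr ⟨hpv, h2, h3⟩)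
      · rcases mem_cn.1 hq with h1 | ⟨h1, h2, h3⟩
        · exact mem_cn.2 (Or.inl h1)
        · exact mem_cn.2 (Or.inr ⟨hqv, h2, h3⟩)

/-- six colours, residues `3` and `4`: two edges at one vertex can be added -/
theorem star6 {G : SimpleGraph V} {S : Finset V} (h : Cex G S 6 b6)
    (hr : (S.card - 1) % 6 = 3 ∨ (S.card - 1) % 6 = 4) : Star G S 6 :=
  fun R hR hne F hF2 p hF => Pool.Agent.OX22.ae_star h hr hR hne hF2 hF

/-- six colours, residues `3` and `4`: the neighbours of two adjacent low vertices without twins -/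
theorem c5_6 {G : SimpleGraph V} {S : Finset V} (h : Cex G S 6 b6)
    (hr : (S.card - 1) % 6 = 3 ∨ (S.card - 1) % 6 = 4)
    (c1 : ∀ x ∈ S, dg G S x = 6 → ∀ v ∈ S, G.Adj x v → ¬ Tw G S x v →
      dg G S v ≤ 6 + (tws G S x).card →
      (dg G S v = 6 → (tws G S v).card ≤ (tws G S x).card) → Clq G (cn G S v x)) :
    ∀ x ∈ S, dg G S x = 6 → (tws G S x).card = 0 → ∀ v ∈ S, dg G S v = 6 →
      (tws G S v).card = 0 → G.Adj x v → ∀ u ∈ S, G.Adj x u → u ≠ v → 8 ≤ dg G S u := by
  intro x hx hlx htx v hv hlv htv hxv u hu hxu huv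
  have hnt : ¬ Tw G S x v := by
    intro ht
    have : v ∈ tws G S x := mem_filter.2 ⟨hv, hxv.ne', ht⟩
    rw [card_eq_zero.1 htx] at this
    exact notMem_empty _ this
  have hnt' : ¬ Tw G S v x := by
    intro ht
    have : x ∈ tws G S v := mem_filter.2 ⟨hx, hxv.ne, ht⟩
    rw [card_eq_zero.1 htv] at this
    exact notMem_empty _ this
  have h1 := c1 x hx hlx v hv hxv hnt (by omega) (fun _ => by omega)
  have h2 := c1 v hv hlv x hx hxv.symm hnt' (by omega) (fun _ => by omega)
  exact c5_star h.cr (by omega) (star6 h hr) (c3 Nm6 h) x hx hlx v hv hlv hxv htx htv h1 h2 u hu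
    hxu huv

end Pool.Agent.OX92
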