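import Pool.Agent.Lib_helper53.OX.Full
import Pool.Agent.Lib_helper53.OX.Six
import Pool.Agent.Lib_helper28.OX.N6

/-!
Ore's values in closed form: `n - 1 = (k - 1) q + p`, `0 ≤ p ≤ k - 2`.
-/

set_option autoImplicit false
set_option linter.unusedSectionVars false

open scoped Classical
open Finset
open Pool.Agent.O2 (PC Cb CrOn pr)
open Pool.Agent.Ore (Good Crit IsCritical fmin)
open Pool.Agent.OX53 (bO vO final_full)

namespace Pool.Agent.OX92

/-- the additive term: `2` if `p = 0`, and `p (2 k - 1 - p)` otherwise -/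
def tk (k p : ℕ) : ℕ := if p = 0 then 2 else p * (2 * k - 1 - p)

theorem tk_eq {K p : ℕ} (hp : p < K) :
    ((K : ℤ) + 1) * (p + 1) - vO K p = tk (K + 1) p := by
  unfold vO tk
  by_cases h0 : p = 0
  · rw [if_pos h0, if_pos h0, h0]
    push_cast
    ring
  · rw [if_neg h0, if_neg h0]
    have h1 : ((2 * (K + 1) - 1 - p : ℕ) : ℤ) = 2 * K + 1 - p := by
      have : 2 * (K + 1) - 1 - p + p = 2 * K + 1 := by omega
      have h2 : ((2 * (K + 1) - 1 - p : ℕ) : ℤ) + p = 2 * K + 1 := by exact_mod_cast this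
      linarith
    rw [Nat.cast_mul, h1]
    ring

/-- the values in closed form -/
theorem final_closed {k : ℕ} (hk : 4 ≤ k)
    (h : ∀ (V : Type) (G : SimpleGraph V) (S : Finset V), CrOn G S (k - 1) →
      Pool.Agent.OW.df G (k - 1) S ≤ bO (k - 1) (S.card - 1)) :
    (∀ n : ℕ, (∃ G : SimpleGraph (Fin n), IsCritical k G) ↔ n = k ∨ k + 2 ≤ n) ∧
      ∀ n : ℕ, n = k ∨ k + 2 ≤ n →
        2 * fmin k n = (k - 2) * (k + 1) * ((n - 1) / (k - 1)) + tk k ((n - 1) % (k - 1)) ∧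
        2 * fmin k (n + (k - 1)) = 2 * fmin k n + (k - 2) * (k + 1) := by
  refine ⟨fun n => (final_full hk h n).1, fun n hn => ?_⟩
  obtain ⟨h1, h2⟩ := (final_full hk h n).2 hn
  obtain ⟨K, rfl⟩ : ∃ K, k = K + 1 := ⟨k - 1, by omega⟩
  have e0 : K + 1 - 1 = K := by omega
  rw [e0] at h1 h2 ⊢
  have e1 : ((K + 1 - 2 : ℕ) : ℤ) = K - 1 := by
    have : K + 1 - 2 + 1 = K := by omega
    have h3 : ((K + 1 - 2 : ℕ) : ℤ) + 1 = K := by exact_mod_cast this
    linarith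
  constructor
  · have h3 := tk_eq (K := K) (p := (n - 1) % K) (Nat.mod_lt _ (by omega))
    have h4 : K * ((n - 1) / K) + (n - 1) % K + 1 = n := by
      have := Nat.div_add_mod (n - 1) K
      omega
    have h5 : (K : ℤ) * (((n - 1) / K : ℕ) : ℤ) + (((n - 1) % K : ℕ) : ℤ) + 1 = n := by
      exact_mod_cast h4
    have h6 : bO K (n - 1) = 2 * (((n - 1) / K : ℕ) : ℤ) + vO K ((n - 1) % K) := rfl
    rw [h6, ← h5] at h1
    have h7 : ((2 * fmin (K + 1) n : ℕ) : ℤ) =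
        (((K + 1 - 2) * (K + 1 + 1) * ((n - 1) / K) + tk (K + 1) ((n - 1) % K) : ℕ) : ℤ) := by
      rw [Nat.cast_add, Nat.cast_mul, Nat.cast_mul, Nat.cast_mul, e1, ← h3]
      push_cast at h1 ⊢
      rw [h1]
      ring
    exact_mod_cast h7
  · have h7 : ((2 * fmin (K + 1) (n + K) : ℕ) : ℤ) =
        ((2 * fmin (K + 1) n + (K + 1 - 2) * (K + 1 + 1) : ℕ) : ℤ) := by
      rw [Nat.cast_add, Nat.cast_mul, Nat.cast_mul, Nat.cast_mul, e1]
      push_cast at h2 ⊢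
      rw [h2]
      ring
    exact_mod_cast h7

theorem b6_eq (m : ℕ) : Pool.Agent.OX28.b6 m = bO 6 m := by
  unfold Pool.Agent.OX28.b6 bO Pool.Agent.OX28.v6 vO
  have h : m % 6 < 6 := Nat.mod_lt _ (by norm_num)
  interval_cases m % 6 <;> simp

/-- `k = 6` and `k = 7` -/
theorem final_67
    (h5 : ∀ (V : Type) (G : SimpleGraph V) (S : Finset V), CrOn G S 5 →
      Pool.Agent.OW.df G 5 S ≤ Pool.Agent.OW28G.b5 (S.card - 1))
    (h6 : ∀ (V : Type) (G : SimpleGraph V) (S : Finset V), CrOn G S 6 →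
      Pool.Agent.OW.df G 6 S ≤ Pool.Agent.OX28.b6 (S.card - 1)) (k : ℕ) (hk : k = 6 ∨ k = 7) :
    (∀ n : ℕ, (∃ G : SimpleGraph (Fin n), IsCritical k G) ↔ n = k ∨ k + 2 ≤ n) ∧
      ∀ n : ℕ, n = k ∨ k + 2 ≤ n →
        2 * fmin k n = (k - 2) * (k + 1) * ((n - 1) / (k - 1)) + tk k ((n - 1) % (k - 1)) ∧
        2 * fmin k (n + (k - 1)) = 2 * fmin k n + (k - 2) * (k + 1) := by
  apply final_closed (by omega)
  intro V G S hS
  rcases hk with rfl | rfl
  · have h1 := h5 V G S hS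
    rw [Pool.Agent.OX53.b5_eq] at h1
    exact h1
  · have h1 := h6 V G S hS
    rw [b6_eq] at h1
    exact h1

end Pool.Agent.OX92
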