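import Pool.Agent.Lib_helper63.OX.C1e
import Pool.Agent.Lib_helper51.OK6.Y8
import Pool.Agent.Lib_helper46.OX.L6
import Pool.Agent.Lib_helper92.OX.Asm6
import Pool.Agent.Lib_helper92.OX.C5s

/-! Six colours: the structure of the low vertices of a minimal counterexample. -/

set_option autoImplicit false
set_option linter.unusedSectionVars false
set_option linter.unusedVariables false

open scoped Classical
open Finset
open Pool.Agent.O2 (PC Cb CrOn pr ms dg nd)
open Pool.Agent.O3 (con hit Clq)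
open Pool.Agent.OW28 (NoCE)
open Pool.Agent.OW
open Pool.Agent.OX28 (b6 Nm6 c2 c3 c4 c4' no_ce)
open Pool.Agent.OX63 (P1)
open Pool.Agent.OX46.Six (L6 C5)

namespace Pool.Agent.OX92

variable {V : Type} {G : SimpleGraph V} {S : Finset V}

/-- (c1) for the residue `3` -/
theorem c1_r3 (h : Cex G S 6 b6) (hr : (S.card - 1) % 6 = 3) {x v : V} (p : P1 G S x v) :
    Clq G (Pool.Agent.OW.cn G S v x) :=
  Pool.Agent.OX63.c1_r3_of h hr (fun _ _ _ p' c' hm hY _ =>
    Pool.Agent.OK6.c1_r3_8 h hr p' c' hm hY) p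

/-- the structure of the low vertices -/
theorem l6_of (h : Cex G S 6 b6) (hr : (S.card - 1) % 6 + 2 ≤ 6)
    (hc1 : ∀ x v : V, P1 G S x v → Clq G (Pool.Agent.OW.cn G S v x)) : L6 G S :=
  ⟨h.cr, fun x hx hl v hv ad nt hd ho => hc1 x v ⟨hx, hl, hv, ad, nt, hd, ho⟩,
    c2 Nm6 h, c3 Nm6 h,
    fun x hx hd _ v hv hxv hq => by
      have := c4 Nm6 h hr x hx hd v hv hxv hq
      omega,
    fun x hx hd => by
      have := c4' Nm6 h x hx hd
      omega,
    no_ce Nm6 h⟩

/-- the degrees in the neighbourhood of a low pair -/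
theorem c5_of6 (h : Cex G S 6 b6) (hr : (S.card - 1) % 6 = 3 ∨ (S.card - 1) % 6 = 4)
    (hc1 : ∀ x v : V, P1 G S x v → Clq G (Pool.Agent.OW.cn G S v x)) : C5 G S :=
  c5_6 h hr (fun x hx hl v hv ad nt hd ho => hc1 x v ⟨hx, hl, hv, ad, nt, hd, ho⟩)

/-- the theorem for six colours, from the open blocks -/
theorem claim6_of
    (hc14 : ∀ (V : Type) (G : SimpleGraph V) (S : Finset V), Cex G S 6 b6 →
      (S.card - 1) % 6 = 4 → ∀ x v : V, P1 G S x v → Clq G (Pool.Agent.OW.cn G S v x))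
    (e2 : ∀ (V : Type) (G : SimpleGraph V) (S : Finset V), L6 G S →
      2 * (S.card : ℤ) ≤ 6 * df G 6 S → False)
    (e34 : ∀ (V : Type) (G : SimpleGraph V) (S : Finset V), L6 G S → C5 G S →
      2 * (S.card : ℤ) ≤ 7 * df G 6 S → False)
    (e22 : ∀ (V : Type) (G : SimpleGraph V) (S : Finset V), L6 G S → C5 G S →
      S.card = 22 → 6 ≤ df G 6 S → False) :
    ∀ (V : Type) (G : SimpleGraph V) (S : Finset V), CrOn G S 6 →
      df G 6 S ≤ b6 (S.card - 1) := by
  have hc : ∀ (V : Type) (G : SimpleGraph V) (S : Finset V), Cex G S 6 b6 →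
      ((S.card - 1) % 6 = 2 ∨ (S.card - 1) % 6 = 3 ∨ (S.card - 1) % 6 = 4) →
      ∀ x v : V, P1 G S x v → Clq G (Pool.Agent.OW.cn G S v x) := by
    intro V G S h hr x v p
    rcases hr with hr | hr | hr
    · exact Pool.Agent.OX63.c1_r2 h hr p
    · exact c1_r3 h hr p
    · exact hc14 V G S h hr x v p
  apply claim6_step
  · intro V G S h hr hn
    exact e2 V G S (l6_of h (by omega) (hc V G S h (by omega))) hn
  · intro V G S h hr hn
    exact e34 V G S (l6_of h (by omega) (hc V G S h (by omega)))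
      (c5_of6 h hr (hc V G S h (by omega))) hn
  · intro V G S h hn hd
    exact e22 V G S (l6_of h (by omega) (hc V G S h (by omega)))
      (c5_of6 h (by omega) (hc V G S h (by omega))) hn hd

end Pool.Agent.OX92
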