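import Pool.Agent.Lib_helper92.OX.Asm5
import Pool.Agent.Lib_helper51.OK5.C1
import Pool.Agent.Lib_helper46.OX.E5b

/-! The lower bound for all critical sets with five colours. -/

set_option autoImplicit false

open Pool.Agent.O2 (CrOn)
open Pool.Agent.OW

namespace Pool.Agent.OX92

/-- the lower bound for all critical sets with five colours -/
theorem claim5 :
    ∀ (V : Type) (G : SimpleGraph V) (S : Finset V), CrOn G S 5 →
      df G 5 S ≤ Pool.Agent.OW28G.b5 (S.card - 1) := by
  apply claim5_step
  · intro V G S h hr
    have hT : Pool.Agent.OX25.T6 5 Pool.Agent.OK5.b5 := by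
      rw [tab_eq]
      exact Pool.Agent.OW28G.T6_5
    exact Pool.Agent.OK5.c1_5 hT h hr
  · intro V G S h hn
    exact Pool.Agent.OX46.end5 h hn

end Pool.Agent.OX92
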