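import Pool.Agent.Lib_helper92.OX.Lo6
import Pool.Agent.Lib_helper92.OX.Main5
import Pool.Agent.Lib_helper22.OX.C4r
import Pool.Agent.Lib_helper46.OX.E6
import Pool.Agent.Lib_helper46.OX.N22

/-! The lower bound for all critical sets with six colours. -/

set_option autoImplicit false

open Pool.Agent.O2 (CrOn)
open Pool.Agent.OW
open Pool.Agent.OX28 (b6)

namespace Pool.Agent.OX92

/-- the lower bound for all critical sets with six colours -/
theorem claim6 :
    ∀ (V : Type) (G : SimpleGraph V) (S : Finset V), CrOn G S 6 →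
      df G 6 S ≤ b6 (S.card - 1) := by
  apply claim6_of
  · intro V G S h hr x v p
    exact Pool.Agent.OX22.c1_r4 h hr p
  · intro V G S h hn
    exact Pool.Agent.OX46.Six.end6_2 h (Finset.card_pos.1 (by
      have := h.cr.card_ge
      omega)) hn
  · intro V G S h h5 hn
    refine Pool.Agent.OX46.Six.end6_34 h h5 ?_ hn
    have h1 := h.cr.card_ge
    have h2 : (7 : ℤ) ≤ S.card := by exact_mod_cast h1
    omega
  · intro V G S h h5 hn hd
    exact Pool.Agent.OX46.Six.end6_22 h h5 hn hd (fun R _ hR => claim5 V G R hR)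

end Pool.Agent.OX92
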